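import Mathlib

set_option autoImplicit false

/-!
# Project CJ (helper7), job JTRI: a lemma on modules over the ring of the cyclotomic integers
-/

open Polynomial

namespace Pool.Agent.Q211.CJ

theorem poly_id (p : ℕ) [hp : Fact p.Prime] (hp2 : p ≠ 2) :
    ∃ u : ℤ[X], (1 - X) ^ (p - 1) = ∑ i ∈ Finset.range p, (X : ℤ[X]) ^ i + C (p : ℤ) * u := by
  have h1 : (((1 - X) ^ (p - 1) - ∑ i ∈ Finset.range p, (X : ℤ[X]) ^ i : ℤ[X])).map (Int.castRingHom (ZMod p)) = 0 := by
    simp only [Polynomial.map_sub, Polynomial.map_pow, Polynomial.map_one, map_X, Polynomial.map_sum]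
    have h2 : ((1 : (ZMod p)[X]) - X) ^ (p - 1) = (X - 1) ^ (p - 1) := by
      have he : Even (p - 1) := hp.out.even_sub_one hp2
      rw [← neg_sub, he.neg_pow]
    have h3 : (X - 1 : (ZMod p)[X]) * (X - 1) ^ (p - 1) = (X - 1) * ∑ i ∈ Finset.range p, X ^ i := by
      rw [← pow_succ', Nat.sub_add_cancel hp.out.one_le, mul_geom_sum, sub_pow_char, one_pow]
    have h4 : (X - 1 : (ZMod p)[X]) ≠ 0 := X_sub_C_ne_zero 1
    rw [h2, mul_left_cancel₀ h4 h3, sub_self]
  have h5 : C (p : ℤ) ∣ ((1 - X) ^ (p - 1) - ∑ i ∈ Finset.range p, (X : ℤ[X]) ^ i : ℤ[X]) := by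
    rw [C_dvd_iff_dvd_coeff]
    intro i
    have h6 := congrArg (fun f => f.coeff i) h1
    simp only [coeff_map, coeff_zero] at h6
    exact (ZMod.intCast_zmod_eq_zero_iff_dvd _ _).1 h6
  obtain ⟨u, hu⟩ := h5
  exact ⟨u, by rw [← hu]; ring⟩

theorem end_mul {M : Type} [AddCommGroup M] (f g : AddMonoid.End M) (a : M) : (f * g) a = f (g a) := rfl

theorem mod_lem (p : ℕ) [hp : Fact p.Prime] (hp2 : p ≠ 2) (M : Type) [AddCommGroup M] (s : AddMonoid.End M) (T : M)
    (hT : s T = T) (hN : ∑ i ∈ Finset.range p, s ^ i = 0) (h : ∀ a : M, ∃ (j : ℕ) (b : M), a = j • T + (b - s b)) :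
    ∀ a : M, ∃ (j : ℕ) (b : M), a = j • T + p • b := by
  have h1 : (1 - s) T = 0 := by
    show T - s T = 0
    rw [hT, sub_self]
  have h2 : ∀ n : ℕ, ∀ a : M, ∃ (j : ℕ) (b : M), a = j • T + ((1 - s) ^ (n + 1)) b := by
    intro n
    induction n with
    | zero =>
      intro a
      obtain ⟨j, b, hb⟩ := h a
      refine ⟨j, b, ?_⟩
      rw [zero_add, pow_one]
      exact hb
    | succ n ih =>
      intro a
      obtain ⟨j, b, hb⟩ := ih a
      obtain ⟨j', b', hb'⟩ := h b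
      refine ⟨j, b', ?_⟩
      rw [hb]
      congr 1
      have h3 : b = j' • T + (1 - s) b' := hb'
      have h4 : ((1 - s) ^ (n + 1)) T = 0 := by
        rw [pow_succ, end_mul, h1, map_zero]
      rw [h3, map_add, map_nsmul, h4, nsmul_zero, zero_add, ← end_mul, ← pow_succ]
  obtain ⟨u, hu⟩ := poly_id p hp2
  have h3 := congrArg (aeval s) hu
  simp only [map_pow, map_sub, map_one, aeval_X, map_add, map_sum, map_mul, aeval_C] at h3
  rw [hN, zero_add] at h3
  intro a
  obtain ⟨j, b, hb⟩ := h2 (p - 2) a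
  have h4 : p - 2 + 1 = p - 1 := by
    have := hp.out.two_le
    omega
  rw [h4, h3] at hb
  refine ⟨j, aeval s u b, ?_⟩
  rw [hb]
  congr 1
  have h5 : algebraMap ℤ (AddMonoid.End M) (p : ℤ) = ((p : ℕ) : AddMonoid.End M) := by
    rw [map_natCast]
  rw [end_mul, h5]
  rfl

theorem end_sum {M : Type} [AddCommGroup M] (s : AddMonoid.End M) (a : M) (n : ℕ) :
    (∑ i ∈ Finset.range n, s ^ i) a = ∑ i ∈ Finset.range n, (s ^ i) a := by
  induction n with
  | zero =>
    rw [Finset.range_zero, Finset.sum_empty, Finset.sum_empty]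
    rfl
  | succ n ih =>
    rw [Finset.sum_range_succ, Finset.sum_range_succ, ← ih]
    rfl

theorem mul_lem (p : ℕ) [hp : Fact p.Prime] (hp2 : p ≠ 2) (A : Type) [CommGroup A] (g : A →* A) (T : A)
    (hT : g T = T) (hB : ∀ a : A, ∏ i ∈ Finset.range p, (g^[i]) a = 1)
    (hA : ∀ a : A, ∃ (j : ℕ) (b : A), a = T ^ j * (b / g b)) :
    ∀ a : A, ∃ (j : ℕ) (b : A), a = T ^ j * b ^ p := by
  set s : AddMonoid.End (Additive A) := MonoidHom.toAdditive g with hs
  have h0 : ∀ a : A, s (Additive.ofMul a) = Additive.ofMul (g a) := fun a => rfl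
  have h2 : ∀ (i : ℕ) (a : A), (s ^ i) (Additive.ofMul a) = Additive.ofMul ((g^[i]) a) := by
    intro i
    induction i with
    | zero => exact fun a => rfl
    | succ i ih =>
      intro a
      rw [pow_succ', end_mul, ih, h0, Function.iterate_succ_apply']
  have h3 : ∑ i ∈ Finset.range p, s ^ i = 0 := by
    refine AddMonoidHom.ext fun a => ?_
    have h4' : (∑ i ∈ Finset.range p, s ^ i : AddMonoid.End (Additive A)) a = 0 := ?_
    · exact h4'
    have h4 : (∑ i ∈ Finset.range p, s ^ i) a = ∑ i ∈ Finset.range p, (s ^ i) a := end_sum s a p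
    have h5 : ∀ i ∈ Finset.range p, (s ^ i) a = Additive.ofMul ((g^[i]) a.toMul) := fun i _ => h2 i a.toMul
    rw [h4, Finset.sum_congr rfl h5, ← ofMul_prod, hB, ofMul_one]
  intro a
  obtain ⟨j, b, hb⟩ := mod_lem p hp2 (Additive A) s (Additive.ofMul T) (congrArg Additive.ofMul hT) h3 (by
    intro a
    obtain ⟨j, b, hb⟩ := hA a.toMul
    exact ⟨j, Additive.ofMul b, congrArg Additive.ofMul hb⟩) (Additive.ofMul a)
  exact ⟨j, b.toMul, congrArg Additive.toMul hb⟩

end Pool.Agent.Q211.CJ
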