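import Pool.Agent.Q7.CJ.Stm
import Pool.Agent.Q211.CJ.JTRIA

set_option autoImplicit false
set_option linter.unusedSectionVars false

/-!
# Project CJ (helper7), job JTRI: triviality
-/

open NumberField IsDedekindDomain Polynomial nonZeroDivisors
open Pool.Agent.Q7.CJ

namespace Pool.Agent.Q211.CJ

section Sg

variable {p : ℕ} [hp : Fact p.Prime] [hp2 : Fact (p ≠ 2)] {L : Type} [Field L] [CharZero L] {D : L}

theorem sg_comp (ζ₁ ζ₂ : L) (h₁ : ζ₁ ^ p = 1) (h₂ : ζ₂ ^ p = 1) (h : (ζ₁ * ζ₂) ^ p = 1) :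
    (sg p D ζ₁ h₁).comp (sg p D ζ₂ h₂) = sg p D (ζ₁ * ζ₂) h := by
  refine AdjoinRoot.algHom_ext ?_
  show sg p D ζ₁ h₁ (sg p D ζ₂ h₂ (xx p D)) = sg p D (ζ₁ * ζ₂) h (xx p D)
  rw [sg_xx, sg_xx, map_mul, sg_xx]
  have h1 : sg p D ζ₁ h₁ (cc p D ζ₂) = cc p D ζ₂ := sg_of p D ζ₁ h₁ (C ζ₂)
  rw [h1]
  unfold cc
  rw [C_mul, map_mul]
  ring

theorem sg_one (h : (1 : L) ^ p = 1) : sg p D 1 h = AlgHom.id _ _ := by
  refine AdjoinRoot.algHom_ext ?_
  show sg p D 1 h (xx p D) = xx p D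
  rw [sg_xx]
  unfold cc
  rw [map_one, map_one, one_mul]

theorem sg_congr {ζ₁ ζ₂ : L} (h : ζ₁ = ζ₂) (h₁ : ζ₁ ^ p = 1) (h₂ : ζ₂ ^ p = 1) : sg p D ζ₁ h₁ = sg p D ζ₂ h₂ := by
  subst h
  rfl

theorem sg_inj (ζ : L) (h : ζ ^ p = 1) : Function.Injective (sg p D ζ h) := by
  have h1 : (ζ ^ (p - 1)) ^ p = 1 := by
    rw [← pow_mul, mul_comm, pow_mul, h, one_pow]
  have h2 : ζ ^ (p - 1) * ζ = 1 := by
    rw [← pow_succ, Nat.sub_add_cancel hp.out.one_le, h]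
  have h3 : (sg p D (ζ ^ (p - 1)) h1).comp (sg p D ζ h) = AlgHom.id _ _ := by
    rw [sg_comp _ _ _ _ (by rw [h2, one_pow]), sg_congr h2 _ (one_pow p), sg_one]
  intro a b hab
  have h4 := congrArg (fun f => f a) h3
  have h5 := congrArg (fun f => f b) h3
  simp only [AlgHom.comp_apply, AlgHom.id_apply] at h4 h5
  rw [← h4, ← h5, hab]

theorem sgi_zero (ζ : L) (h : ζ ^ p = 1) : sgi p D ζ h 0 = AlgHom.id _ _ := by
  unfold sgi
  rw [sg_congr (pow_zero ζ) _ (one_pow p), sg_one]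

theorem sgi_succ (ζ : L) (h : ζ ^ p = 1) (i : ℕ) : sgi p D ζ h (i + 1) = (sg p D ζ h).comp (sgi p D ζ h i) := by
  unfold sgi
  rw [sg_comp _ _ _ _ (by rw [mul_pow, h, one_mul, ← pow_mul, mul_comm, pow_mul, h, one_pow])]
  exact sg_congr (pow_succ' ζ i) _ _

theorem t1_sg (ζ : L) (h : ζ ^ p = 1) : (t1 p D).map (sg p D ζ h) = t1 p D := by
  have hζ : ζ ≠ 0 := by
    rintro rfl
    rw [zero_pow hp.out.ne_zero] at h
    exact zero_ne_one h
  unfold t1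
  rw [Ideal.map_span, Set.image_pair, sg_xx, sg_yy]
  apply le_antisymm
  · rw [Ideal.span_le]
    rintro z hz
    rcases hz with rfl | hz
    · exact Ideal.mul_mem_left _ _ (Ideal.subset_span (Set.mem_insert _ _))
    · rw [Set.mem_singleton_iff.1 hz]
      exact Ideal.subset_span (Set.mem_insert_of_mem _ rfl)
  · rw [Ideal.span_le]
    rintro z hz
    rcases hz with rfl | hz
    · have h1 : xx p D = cc p D ζ⁻¹ * (cc p D ζ * xx p D) := by
        rw [← mul_assoc]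
        have h2 : cc p D ζ⁻¹ * cc p D ζ = 1 := by
          unfold cc
          rw [← map_mul, ← C_mul, inv_mul_cancel₀ hζ, map_one, map_one]
        rw [h2, one_mul]
      have h3 := Ideal.mul_mem_left (Ideal.span {cc p D ζ * xx p D, yy p D}) (cc p D ζ⁻¹)
        (Ideal.subset_span (Set.mem_insert (cc p D ζ * xx p D) {yy p D}))
      rw [← h1] at h3
      exact h3
    · rw [Set.mem_singleton_iff.1 hz]
      exact Ideal.subset_span (Set.mem_insert_of_mem _ rfl)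

theorem map_ne (ζ : L) (h : ζ ^ p = 1) {I : Ideal (BR p D)} (hI : I ≠ ⊥) : I.map (sg p D ζ h) ≠ ⊥ := by
  rw [Ne, Ideal.map_eq_bot_iff_of_injective (sg_inj ζ h)]
  exact hI

end Sg

section Cl

variable {p : ℕ} [hp : Fact p.Prime] [hp2 : Fact (p ≠ 2)] {L : Type} [Field L] [CharZero L] {D : L}
  [hded : IsDedekindDomain (BR p D)]

/-- the class of an ideal -/
noncomputable def cl (I : Ideal (BR p D)) (hI : I ≠ ⊥) : ClassGroup (BR p D) :=
  ClassGroup.mk0 ⟨I, mem_nonZeroDivisors_iff_ne_zero.2 hI⟩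

theorem cl_mul (I J : Ideal (BR p D)) (hI : I ≠ ⊥) (hJ : J ≠ ⊥) (h : I * J ≠ ⊥) : cl (I * J) h = cl I hI * cl J hJ := by
  unfold cl
  rw [← map_mul]
  rfl

theorem cl_pow (I : Ideal (BR p D)) (hI : I ≠ ⊥) (n : ℕ) (h : I ^ n ≠ ⊥) : cl (I ^ n) h = cl I hI ^ n := by
  unfold cl
  rw [← map_pow]
  rfl

theorem sim_iff (I J : Ideal (BR p D)) (hI : I ≠ ⊥) (hJ : J ≠ ⊥) : Sim p D I J ↔ cl I hI = cl J hJ := by
  unfold cl Sim
  rw [ClassGroup.mk0_eq_mk0_iff]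
  constructor
  · rintro ⟨a, b, ha, hb, h⟩
    exact ⟨a, b, ha, hb, h⟩
  · rintro ⟨a, b, ha, hb, h⟩
    exact ⟨a, b, ha, hb, h⟩

theorem cl_surj (a : ClassGroup (BR p D)) : ∃ (I : Ideal (BR p D)) (hI : I ≠ ⊥), cl I hI = a := by
  obtain ⟨⟨I, hI⟩, h⟩ := ClassGroup.mk0_surjective a
  exact ⟨I, mem_nonZeroDivisors_iff_ne_zero.1 hI, h⟩

theorem cl_span (b : BR p D) (h : Ideal.span {b} ≠ ⊥) : cl (Ideal.span {b}) h = 1 := by
  unfold cl
  rw [ClassGroup.mk0_eq_one_iff]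
  exact ⟨⟨b, rfl⟩⟩

theorem cl_congr {I J : Ideal (BR p D)} (h : I = J) (hI : I ≠ ⊥) (hJ : J ≠ ⊥) : cl I hI = cl J hJ := by
  subst h
  rfl

theorem grp_lem {A : Type} [CommGroup A] (t u a g v : A) (h : a * u * g = v) (h2 : t * u = 1) : t * v = a * g := by
  rw [← h, mul_comm a u, mul_assoc u, ← mul_assoc t, h2, one_mul]

theorem cl_prod (f : ℕ → Ideal (BR p D)) (hf : ∀ i, f i ≠ ⊥) (n : ℕ) :
    ∃ h : ∏ i ∈ Finset.range n, f i ≠ ⊥, ∏ i ∈ Finset.range n, cl (f i) (hf i) = cl (∏ i ∈ Finset.range n, f i) h := by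
  induction n with
  | zero =>
    have h1 : ∏ i ∈ Finset.range 0, f i = ⊤ := by
      rw [Finset.range_zero, Finset.prod_empty, Ideal.one_eq_top]
    refine ⟨by rw [h1]; exact top_ne_bot, ?_⟩
    rw [cl_congr h1 _ top_ne_bot, Finset.range_zero, Finset.prod_empty]
    symm
    unfold cl
    rw [ClassGroup.mk0_eq_one_iff]
    exact ⟨⟨1, Ideal.span_singleton_one.symm⟩⟩
  | succ n ih =>
    obtain ⟨h2, h3⟩ := ih
    have h4 : (∏ i ∈ Finset.range n, f i) * f n ≠ ⊥ := mul_ne_zero h2 (hf n)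
    have h5 : ∏ i ∈ Finset.range (n + 1), f i = (∏ i ∈ Finset.range n, f i) * f n := Finset.prod_range_succ _ _
    refine ⟨by rw [h5]; exact h4, ?_⟩
    rw [cl_congr h5 _ h4, Finset.prod_range_succ, h3, cl_mul _ _ h2 (hf n) h4]

/-- the action of `σ` on the class group -/
theorem ex_g (ζ : L) (h : ζ ^ p = 1) : ∃ g : ClassGroup (BR p D) →* ClassGroup (BR p D),
    ∀ (I : Ideal (BR p D)) (hI : I ≠ ⊥), g (cl I hI) = cl (I.map (sg p D ζ h)) (map_ne ζ h hI) := by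
  classical
  choose F hF hcl using cl_surj (p := p) (D := D)
  have key : ∀ (I J : Ideal (BR p D)) (hI : I ≠ ⊥) (hJ : J ≠ ⊥), cl I hI = cl J hJ →
      cl (I.map (sg p D ζ h)) (map_ne ζ h hI) = cl (J.map (sg p D ζ h)) (map_ne ζ h hJ) := by
    intro I J hI hJ hIJ
    rw [← sim_iff] at hIJ ⊢
    obtain ⟨a, b, ha, hb, hab⟩ := hIJ
    refine ⟨sg p D ζ h a, sg p D ζ h b, ?_, ?_, ?_⟩
    · intro h0
      exact ha (sg_inj ζ h (by rw [h0, map_zero]))
    · intro h0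
      exact hb (sg_inj ζ h (by rw [h0, map_zero]))
    · have h1 := congrArg (Ideal.map (sg p D ζ h)) hab
      rw [Ideal.map_mul, Ideal.map_mul, Ideal.map_span, Ideal.map_span, Set.image_singleton, Set.image_singleton] at h1
      exact h1
  refine ⟨⟨⟨fun a => cl ((F a).map (sg p D ζ h)) (map_ne ζ h (hF a)), ?_⟩, ?_⟩, ?_⟩
  · have h1 : cl (F 1) (hF 1) = cl (⊤ : Ideal (BR p D)) top_ne_bot := by
      rw [hcl]
      symm
      unfold cl
      rw [ClassGroup.mk0_eq_one_iff]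
      exact ⟨⟨1, Ideal.span_singleton_one.symm⟩⟩
    rw [key _ _ _ _ h1]
    unfold cl
    rw [ClassGroup.mk0_eq_one_iff]
    show ((⊤ : Ideal (BR p D)).map (sg p D ζ h)).IsPrincipal
    rw [Ideal.map_top]
    exact ⟨⟨1, Ideal.span_singleton_one.symm⟩⟩
  · intro a b
    have h0 : F a * F b ≠ ⊥ := mul_ne_zero (hF a) (hF b)
    have h1 : cl (F (a * b)) (hF (a * b)) = cl (F a * F b) h0 := by
      rw [cl_mul _ _ (hF a) (hF b), hcl, hcl, hcl]
    show cl ((F (a * b)).map (sg p D ζ h)) (map_ne ζ h (hF (a * b))) =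
      cl ((F a).map (sg p D ζ h)) (map_ne ζ h (hF a)) * cl ((F b).map (sg p D ζ h)) (map_ne ζ h (hF b))
    rw [key _ _ _ _ h1, ← cl_mul _ _ _ _ (mul_ne_zero (map_ne ζ h (hF a)) (map_ne ζ h (hF b)))]
    exact cl_congr (Ideal.map_mul _ _ _) _ _
  · intro I hI
    show cl ((F (cl I hI)).map (sg p D ζ h)) (map_ne ζ h (hF (cl I hI))) = _
    exact key _ _ _ _ (hcl _)

end Cl

section Main

open Pool.Agent.Q7.LK

variable {F : Type} [Field F] [NumberField F]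

theorem jtri : S_DED → S_NMM → S_MV → S_BC → S_NI → S_INJ → S_JCOND → S_JTRI := by
  intro hDED hNMM hMV hBC hNI hINJ hJC p hp hp2 F _ _ ζ hζ D hD hbad I₀ hI₀
  have hζ1 : ζ ^ p = 1 := hζ.pow_eq_one
  obtain ⟨hded, -⟩ := hDED p F D hD
  obtain ⟨hmul, htop, hzero, ht2, -, -, ht10, ht20, -, h12, -⟩ := hNMM p F D hD
  obtain ⟨hmv, -⟩ := hMV p F D hD
  obtain ⟨g, hg⟩ := ex_g (p := p) (D := D) ζ hζ1
  have hodd : Odd p := hp.out.odd_of_ne_two hp2.out
  set T := cl (t1 p D) ht10 with hT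
  have hT2 : cl (t2 p D) ht20 * T = 1 := by
    have h0 : t2 p D * t1 p D ≠ ⊥ := mul_ne_zero ht20 ht10
    rw [hT, ← cl_mul _ _ ht20 ht10 h0]
    have h1 : t2 p D * t1 p D = Ideal.span {xx p D} := by rw [mul_comm, h12]
    rw [cl_congr h1 h0 (by rw [← h1]; exact h0)]
    exact cl_span _ _
  have hgT : g T = T := by
    rw [hT, hg]
    exact cl_congr (t1_sg ζ hζ1) _ _
  -- the first part
  have hA : ∀ a : ClassGroup (BR p D), ∃ (j : ℕ) (b : ClassGroup (BR p D)), a = T ^ j * (b / g b) := by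
    intro a
    obtain ⟨I, hI, rfl⟩ := cl_surj a
    obtain ⟨J, hJ, hIJ, hJ1, -⟩ := hmv I hI
    have hn0 : nm p D J ≠ 0 := by
      intro h
      exact hJ1 ((hzero J hJ).1 h)
    have hAJ : ∀ v : HeightOneSpectrum (𝓞 F), AJ p v D (nm p D J) := by
      intro v
      have hco : ∀ a : F, algebraMap F (v.adicCompletion F) a = (a : v.adicCompletion F) := by
        intro a
        rw [HeightOneSpectrum.algebraMap_adicCompletion]
        rfl
      obtain ⟨-, hb⟩ := hBC p F (v.adicCompletion F) (algebraMap F (v.adicCompletion F)) D (D : v.adicCompletion F)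
        (hco D) hD
      obtain ⟨h1, h2⟩ := hb J hJ
      refine ⟨?_, _, h1, 1, one_ne_zero, ?_⟩
      · rw [← hco]
        exact (_root_.map_ne_zero _).2 hn0
      · rw [h2, hco, one_pow, mul_one]
    have hC := hJC p F ζ hζ D (nm p D J) hD hAJ
    have h3 : ∃ j : ℕ, IsPow p (nm p D J * D ^ j) := by
      by_contra h4
      push Not at h4
      exact hbad ⟨_, hC, h4⟩
    obtain ⟨j, x, hx⟩ := h3
    have ht2j : t2 p D ^ j ≠ ⊥ := pow_ne_zero _ ht20
    have hJt : J * t2 p D ^ j ≠ ⊥ := mul_ne_zero hJ ht2j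
    have hnt : nm p D (t2 p D ^ j) = (-D) ^ j := by
      clear hx ht2j hJt
      induction j with
      | zero =>
        rw [pow_zero, pow_zero, Ideal.one_eq_top]
        exact htop
      | succ j ih => rw [pow_succ, hmul _ _ (pow_ne_zero _ ht20) ht20, ih, ht2, pow_succ]
    have hx0 : x ≠ 0 := by
      rintro rfl
      rw [zero_pow hp.out.ne_zero] at hx
      exact mul_ne_zero hn0 (pow_ne_zero _ hD) hx
    have hnm : nm p D (J * t2 p D ^ j) = (x * (-1) ^ j) ^ p := by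
      rw [hmul _ _ hJ ht2j, hnt, neg_pow, mul_pow, ← hx, ← pow_mul, mul_comm j p, pow_mul, hodd.neg_one_pow]
      ring
    obtain ⟨J', hJ', hsim⟩ := hINJ p F ζ hζ1 hζ D hD _ hJt (x * (-1) ^ j)
      (mul_ne_zero hx0 (pow_ne_zero _ (neg_ne_zero.2 one_ne_zero))) hnm
    have hm' := map_ne ζ hζ1 hJ'
    have hm0 : J * t2 p D ^ j * J'.map (sg p D ζ hζ1) ≠ ⊥ := mul_ne_zero hJt hm'
    rw [sim_iff _ _ hm0 hJ', cl_mul _ _ hJt hm' hm0, cl_mul _ _ hJ ht2j hJt, cl_pow _ ht20 _ ht2j, ← hg J' hJ'] at hsim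
    rw [sim_iff _ _ hI hJ] at hIJ
    refine ⟨j, cl J' hJ', ?_⟩
    rw [hIJ, eq_comm, mul_div_assoc', div_eq_iff_eq_mul]
    have h5 : T ^ j * cl (t2 p D) ht20 ^ j = 1 := by
      rw [← mul_pow, mul_comm, hT2, one_pow]
    exact grp_lem _ _ _ _ _ hsim h5
  -- the norm
  have hB : ∀ a : ClassGroup (BR p D), ∏ i ∈ Finset.range p, (g^[i]) a = 1 := by
    intro a
    obtain ⟨I, hI, rfl⟩ := cl_surj a
    obtain ⟨f, hf, hprod, -⟩ := hNI p F ζ hζ1 hζ D hD I hI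
    have h1 : ∀ i : ℕ, ∃ h : I.map (sgi p D ζ hζ1 i) ≠ ⊥, (g^[i]) (cl I hI) = cl (I.map (sgi p D ζ hζ1 i)) h := by
      intro i
      induction i with
      | zero =>
        have h2 : I.map (sgi p D ζ hζ1 0) = I := by
          rw [sgi_zero]
          exact Ideal.map_id I
        refine ⟨by rw [h2]; exact hI, ?_⟩
        exact cl_congr h2.symm _ _
      | succ i ih =>
        obtain ⟨h2, h3⟩ := ih
        have h4 : I.map (sgi p D ζ hζ1 (i + 1)) = (I.map (sgi p D ζ hζ1 i)).map (sg p D ζ hζ1) := by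
          rw [sgi_succ]
          exact (Ideal.map_map _ _).symm
        refine ⟨by rw [h4]; exact map_ne ζ hζ1 h2, ?_⟩
        rw [Function.iterate_succ_apply', h3, hg]
        exact cl_congr h4.symm _ _
    choose h2 h3 using h1
    obtain ⟨h4, h5⟩ := cl_prod (fun i => I.map (sgi p D ζ hζ1 i)) h2 p
    rw [Finset.prod_congr rfl fun i _ => h3 i, h5]
    have h6 : Ideal.span {AdjoinRoot.of (ff p D) f} ≠ ⊥ := by
      rw [← hprod]
      exact h4
    rw [cl_congr hprod h4 h6]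
    exact cl_span _ _
  -- the conclusion
  obtain ⟨j, b, hb⟩ := mul_lem p hp2.out (ClassGroup (BR p D)) g T hgT hB hA (cl I₀ hI₀)
  obtain ⟨J, hJ, hJb⟩ := cl_surj b
  have h1 : cl I₀ hI₀ = T ^ j * cl J hJ ^ p := by
    rw [hJb]
    exact hb
  have ht1j : t1 p D ^ j ≠ ⊥ := pow_ne_zero _ ht10
  have hJp : J ^ p ≠ ⊥ := pow_ne_zero _ hJ
  refine ⟨j, J, hJ, ?_⟩
  rw [sim_iff _ _ hI₀ (mul_ne_zero ht1j hJp), h1, cl_mul _ _ ht1j hJp, cl_pow _ ht10 _ ht1j, cl_pow _ hJ _ hJp]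

end Main

end Pool.Agent.Q211.CJ
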