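import Pool.Agent.Q7.CJ.Stm3
import Pool.Agent.Q211.CJ.JTRI
import Pool.Agent.Q164.CJ.Lst

set_option autoImplicit false
set_option linter.unusedSectionVars false

/-!
# Project CJ (helper7), job STR: the structure of the points
-/

open Polynomial Pool.Agent.Q7.CJ

namespace Pool.Agent.Q211.CJ

theorem poly_id' (p : ℕ) [hp : Fact p.Prime] (hp2 : p ≠ 2) :
    ∃ n : ℕ → ℤ, ((1 - X) ^ (p - 1) : ℤ[X]) = ∑ i ∈ Finset.range p, (X : ℤ[X]) ^ i +
      C (p : ℤ) * ∑ i ∈ Finset.range p, C (n i) * X ^ i := by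
  obtain ⟨u, hu⟩ := poly_id p hp2
  have hp0 : (p : ℤ) ≠ 0 := by exact_mod_cast hp.out.ne_zero
  have h1 : C (p : ℤ) * u = (1 - X) ^ (p - 1) - ∑ i ∈ Finset.range p, (X : ℤ[X]) ^ i := by
    rw [hu]
    ring
  have h2 : u.natDegree < p := by
    have h3 : (C (p : ℤ) * u).natDegree = u.natDegree := natDegree_C_mul hp0
    rw [← h3, h1]
    have h4 : ((1 - X : ℤ[X]) ^ (p - 1)).natDegree ≤ p - 1 := by
      refine le_trans natDegree_pow_le ?_
      have h5 : (1 - X : ℤ[X]).natDegree ≤ 1 := by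
        refine le_trans (natDegree_sub_le _ _) ?_
        rw [natDegree_one, natDegree_X]
        simp
      calc (p - 1) * (1 - X : ℤ[X]).natDegree ≤ (p - 1) * 1 := Nat.mul_le_mul_left _ h5
        _ = p - 1 := mul_one _
    have h6 : (∑ i ∈ Finset.range p, (X : ℤ[X]) ^ i).natDegree ≤ p - 1 := by
      refine natDegree_sum_le_of_forall_le _ _ fun i hi => ?_
      rw [natDegree_X_pow]
      have := Finset.mem_range.1 hi
      omega
    have h7 := natDegree_sub_le ((1 - X : ℤ[X]) ^ (p - 1)) (∑ i ∈ Finset.range p, (X : ℤ[X]) ^ i)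
    have h8 := hp.out.pos
    have h9 := max_le h4 h6
    omega
  refine ⟨fun i => u.coeff i, ?_⟩
  rw [hu]
  congr 2
  conv_lhs => rw [u.as_sum_range' p h2]
  exact Finset.sum_congr rfl fun i _ => (C_mul_X_pow_eq_monomial).symm

theorem end_sum' {M : Type} [AddCommGroup M] (f : ℕ → AddMonoid.End M) (a : M) (n : ℕ) :
    (∑ i ∈ Finset.range n, f i) a = ∑ i ∈ Finset.range n, (f i) a := by
  induction n with
  | zero =>
    rw [Finset.range_zero, Finset.sum_empty, Finset.sum_empty]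
    rfl
  | succ n ih =>
    rw [Finset.sum_range_succ, Finset.sum_range_succ, ← ih]
    rfl

theorem alg_lem (p : ℕ) [hp : Fact p.Prime] (hp2 : p ≠ 2) (M : Type) [AddCommGroup M] (s : M →+ M)
    (hN : ∀ P : M, ∑ i ∈ Finset.range p, s^[i] P = 0) :
    ∃ n : ℕ → ℤ, ∀ P : M, (fun Q : M => Q - s Q)^[p - 1] P = p • ∑ i ∈ Finset.range p, n i • s^[i] P := by
  obtain ⟨n, hn⟩ := poly_id' p hp2
  refine ⟨n, fun P => ?_⟩
  obtain ⟨S, hS⟩ : ∃ S : AddMonoid.End M, ∀ P : M, S P = s P := ⟨s, fun _ => rfl⟩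
  have h1 : ∀ (i : ℕ) (P : M), (S ^ i) P = s^[i] P := by
    intro i
    induction i with
    | zero => exact fun _ => rfl
    | succ i ih =>
      intro P
      rw [pow_succ', end_mul, ih, Function.iterate_succ_apply', hS]
  have h2 : ∀ (i : ℕ) (P : M), ((1 - S) ^ i) P = (fun Q : M => Q - s Q)^[i] P := by
    intro i
    induction i with
    | zero => exact fun _ => rfl
    | succ i ih =>
      intro P
      rw [pow_succ', end_mul, ih, Function.iterate_succ_apply', ← hS]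
      rfl
  have h3 := congrArg (aeval S) hn
  simp only [map_pow, map_sub, map_one, aeval_X, map_add, map_sum, map_mul, aeval_C] at h3
  have h4 : (∑ i ∈ Finset.range p, S ^ i) P = 0 := by
    rw [end_sum', ← hN P]
    exact Finset.sum_congr rfl fun i _ => h1 i P
  have h5 : ∀ (m : ℤ) (g : AddMonoid.End M) (a : M), (algebraMap ℤ (AddMonoid.End M) m * g) a = m • g a := by
    intro m g a
    rw [end_mul]
    simp
  rw [← h2, h3]
  have h6 : (∑ i ∈ Finset.range p, S ^ i + algebraMap ℤ (AddMonoid.End M) (p : ℤ) *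
      ∑ i ∈ Finset.range p, algebraMap ℤ (AddMonoid.End M) (n i) * S ^ i) P =
      (∑ i ∈ Finset.range p, S ^ i) P + (algebraMap ℤ (AddMonoid.End M) (p : ℤ) *
      ∑ i ∈ Finset.range p, algebraMap ℤ (AddMonoid.End M) (n i) * S ^ i) P := rfl
  rw [h6, h4, zero_add, h5, end_sum', natCast_zsmul]
  congr 1
  refine Finset.sum_congr rfl fun i _ => ?_
  rw [h5, h1]

section

variable {p : ℕ} [hp : Fact p.Prime] [hp2 : Fact (p ≠ 2)]

/-- homomorphisms from the coordinate ring -/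
theorem br_ext {L : Type} [Field L] {D : L} {S : Type} [CommRing S] (f g : BR p D →+* S)
    (h1 : ∀ a : L, f (cc p D a) = g (cc p D a)) (h2 : f (yy p D) = g (yy p D)) (h3 : f (xx p D) = g (xx p D)) : f = g := by
  refine RingHom.ext fun b => ?_
  obtain ⟨q, rfl⟩ := AdjoinRoot.mk_surjective b
  have h4 : f.comp (AdjoinRoot.mk (ff p D)) = g.comp (AdjoinRoot.mk (ff p D)) := by
    refine Polynomial.ringHom_ext (fun a => ?_) ?_
    · have h5 : (f.comp (AdjoinRoot.of (ff p D))) = (g.comp (AdjoinRoot.of (ff p D))) := by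
        refine Polynomial.ringHom_ext (fun a => h1 a) h2
      exact RingHom.congr_fun h5 a
    · exact h3
  exact RingHom.congr_fun h4 q

theorem bc_comp' {L M : Type} [Field L] [Field M] (φ : L →+* M) (ψ : M →+* L) (hψ : ∀ x, ψ (φ x) = x) (D : L) (D' : M)
    (h : φ D = D') (h' : ψ D' = D) : (bc p ψ D' D h').comp (bc p φ D D' h) = RingHom.id (BR p D) := by
  refine br_ext _ _ ?_ ?_ ?_
  · intro a
    rw [RingHom.comp_apply, bc_cc, bc_cc, hψ]
    rfl
  · rw [RingHom.comp_apply, bc_yy, bc_yy]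
    rfl
  · rw [RingHom.comp_apply, bc_xx, bc_xx]
    rfl

theorem bc_sg {L M : Type} [Field L] [Field M] (ψ : M →+* L) (D : L) (D' : M) (h' : ψ D' = D) (z : M) (hz : z ^ p = 1)
    (hz' : (ψ z) ^ p = 1) : (bc p ψ D' D h').comp ((sg p D' z hz : BR p D' →ₐ[M[X]] BR p D') : BR p D' →+* BR p D') =
      (((sg p D (ψ z) hz' : BR p D →ₐ[L[X]] BR p D) : BR p D →+* BR p D)).comp (bc p ψ D' D h') := by
  refine br_ext _ _ ?_ ?_ ?_
  · intro a
    show bc p ψ D' D h' (sg p D' z hz (cc p D' a)) = sg p D (ψ z) hz' (bc p ψ D' D h' (cc p D' a))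
    have h1 : sg p D' z hz (cc p D' a) = cc p D' a := sg_of p D' z hz (C a)
    have h2 : sg p D (ψ z) hz' (cc p D (ψ a)) = cc p D (ψ a) := sg_of p D (ψ z) hz' (C (ψ a))
    rw [h1, bc_cc, h2]
  · show bc p ψ D' D h' (sg p D' z hz (yy p D')) = sg p D (ψ z) hz' (bc p ψ D' D h' (yy p D'))
    rw [sg_yy, bc_yy, sg_yy]
  · show bc p ψ D' D h' (sg p D' z hz (xx p D')) = sg p D (ψ z) hz' (bc p ψ D' D h' (xx p D'))
    rw [sg_xx, map_mul, bc_cc, bc_xx, sg_xx]

theorem span_ne {L : Type} [Field L] {D : L} {b : BR p D} (hb : b ≠ 0) : Sim p D (Ideal.span {b}) ⊤ :=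
  ⟨1, b, one_ne_zero, hb, by rw [Ideal.span_singleton_one, Ideal.top_mul, Ideal.mul_top]⟩

end

theorem str (_ : S_DED) (hNMM : S_NMM) (hNI : S_NI) (hAMB : S_AMB) (hCLOS : S_CLOS) (hD4H : S_D4H) (hDIC : S_DIC)
    (_ : S_FUN) : S_STR := by
  intro p _ _ F _ _ ζ hζ1 hζ D hD L _ _
  have hp := (Fact.out (p := p.Prime))
  have hp2 : p ≠ 2 := Fact.out
  have : CharZero L := charZero_of_injective_algebraMap (algebraMap F L).injective
  obtain ⟨d1, d2, d3, d4, d5, d6, d7, d8⟩ := hDIC p F D hD L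
  set DL := algebraMap F L D with hDL
  have hDL0 : DL ≠ 0 := (_root_.map_ne_zero _).2 hD
  set ζL := algebraMap F L ζ with hζL
  have hz1 : ζL ^ p = 1 := by
    rw [hζL, ← map_pow, hζ1, map_one]
  have hζL' : IsPrimitiveRoot ζL p := hζ.map_of_injective (algebraMap F L).injective
  obtain ⟨nmul, none, -, nt2, -, -, t10, t20, -, h12, h1p, -⟩ := hNMM p L DL hDL0
  set s : Jp p D L →+ Jp p D L := om p D ζ hζ1 L with hs
  -- principal ideals
  have hprin : ∀ (P : Jp p D L) (b : BR p DL), IsCls p D P (Ideal.span {b}) → P = 0 := by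
    intro P b hP
    have hb : b ≠ 0 := by
      rintro rfl
      exact d3 _ _ hP (by rw [Ideal.span_singleton_eq_bot])
    exact (d4 _ _ _ _ hP d5).1.2 (span_ne hb)
  have hT : ∀ (n : ℕ), IsCls p D (n • tT p D L) (t1 p DL ^ n) := by
    intro n
    induction n with
    | zero =>
      rw [zero_nsmul, pow_zero, Ideal.one_eq_top]
      exact d5
    | succ n ih =>
      rw [succ_nsmul, pow_succ]
      exact (d4 _ _ _ _ ih d6).2
  have hpT : p • tT p D L = 0 := by
    have h1 := hT p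
    rw [h1p] at h1
    exact hprin _ _ h1
  have hN : ∀ P : Jp p D L, ∑ i ∈ Finset.range p, s^[i] P = 0 := by
    intro P
    obtain ⟨I, hI⟩ := d1 P
    obtain ⟨g, -, hprod, -⟩ := hNI p L ζL hz1 hζL' DL hDL0 I (d3 _ _ hI)
    have h1 : ∀ i : ℕ, IsCls p D (s^[i] P) (I.map (sgi p DL ζL hz1 i)) := by
      intro i
      induction i with
      | zero =>
        have h2 : I.map (sgi p DL ζL hz1 0) = I := by
          rw [sgi_zero]
          exact Ideal.map_id I
        rw [h2]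
        exact hI
      | succ i ih =>
        have h4 : I.map (sgi p DL ζL hz1 (i + 1)) = (I.map (sgi p DL ζL hz1 i)).map (sg p DL ζL hz1) := by
          rw [sgi_succ]
          exact (Ideal.map_map _ _).symm
        rw [h4, Function.iterate_succ_apply']
        exact d7 ζ hζ1 hz1 _ _ ih
    have h2 : ∀ n : ℕ, IsCls p D (∑ i ∈ Finset.range n, s^[i] P) (∏ i ∈ Finset.range n, I.map (sgi p DL ζL hz1 i)) := by
      intro n
      induction n with
      | zero =>
        rw [Finset.range_zero, Finset.sum_empty, Finset.prod_empty, Ideal.one_eq_top]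
        exact d5
      | succ n ih =>
        rw [Finset.sum_range_succ, Finset.prod_range_succ]
        exact (d4 _ _ _ _ ih (h1 n)).2
    have h3 := h2 p
    rw [hprod] at h3
    exact hprin _ _ h3
  refine ⟨hN, hpT, ?_, ?_, ?_, ?_⟩
  · intro P hP
    obtain ⟨I, hI⟩ := d1 P
    have h1 := d7 ζ hζ1 hz1 P I hI
    rw [← hs, hP] at h1
    have h2 := (d4 _ _ _ _ h1 hI).1.1 rfl
    obtain ⟨j, hj⟩ := hAMB p L ζL hz1 hζL' DL hDL0 I (d3 _ _ hI) h2
    exact ⟨j, (d4 _ _ _ _ hI (hT j)).1.2 hj⟩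
  · intro hcl P
    obtain ⟨I, hI⟩ := d1 P
    obtain ⟨M, _, _, hfin, -, hM⟩ := hCLOS p L ζL hζL' DL hDL0 I (d3 _ _ hI)
    have hzM : (algebraMap L M ζL) ^ p = 1 := by rw [← map_pow, hz1, map_one]
    obtain ⟨J, hJ, hsim⟩ := hM hzM
    have hbij : Function.Bijective (algebraMap L M) := IsAlgClosed.algebraMap_bijective_of_isIntegral
    let e : L ≃+* M := RingEquiv.ofBijective (algebraMap L M) hbij
    let ψ : M →+* L := (e.symm : M →+* L)
    have hψ : ∀ x : L, ψ (algebraMap L M x) = x := fun x => e.symm_apply_apply x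
    have hinj : Function.Injective (bc p ψ (algebraMap L M DL) DL (hψ DL)) := bc_injective p ψ _ _ _
    set J' := J.map (bc p ψ (algebraMap L M DL) DL (hψ DL)) with hJ'
    have hJ'0 : J' ≠ ⊥ := by
      rw [hJ', Ne, Ideal.map_eq_bot_iff_of_injective hinj]
      exact hJ
    have h1 := Pool.Agent.Q164.CJ.sim_map' ψ (hψ DL) hsim
    rw [Ideal.map_mul, Ideal.map_map, bc_comp' (algebraMap L M) ψ hψ DL _ rfl (hψ DL)] at h1
    have h2 : (J.map (sg p (algebraMap L M DL) (algebraMap L M ζL) hzM)).map (bc p ψ (algebraMap L M DL) DL (hψ DL)) =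
        J'.map (sg p DL ζL hz1) := by
      have hzz : (ψ (algebraMap L M ζL)) ^ p = 1 := by rw [hψ, hz1]
      have h3 := congrArg (fun f => J.map f)
        (bc_sg ψ DL (algebraMap L M DL) (hψ DL) (algebraMap L M ζL) hzM hzz)
      have h4 := Pool.Agent.Q164.CJ.sg_cast (hψ ζL) hzz hz1 J'
      refine Eq.trans ?_ h4
      refine Eq.trans ?_ (Eq.trans h3 ?_)
      · exact Ideal.map_map _ _
      · exact (Ideal.map_map _ _).symm
    rw [h2] at h1
    obtain ⟨Q, hQ⟩ := d2 J' hJ'0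
    have h3 := (d4 _ _ _ _ hI (d7 ζ hζ1 hz1 Q J' hQ)).2
    have h4 : Sim p DL (I * J'.map (sg p DL ζL hz1)) J' := by
      have h5 : I.map (RingHom.id (BR p DL)) = I := Ideal.map_id I
      rw [h5] at h1
      exact h1
    have h5 := (d4 _ _ _ _ h3 hQ).1.2 h4
    refine ⟨Q, ?_⟩
    rw [← hs] at h5
    rw [sub_eq_iff_eq_add]
    exact h5.symm
  · intro j hj
    by_contra hpj
    have hco : Nat.Coprime p j := (Nat.Prime.coprime_iff_not_dvd hp).2 hpj
    have hT0 : tT p D L = 0 := by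
      have h1 : addOrderOf (tT p D L) ∣ p := addOrderOf_dvd_of_nsmul_eq_zero hpT
      have h2 : addOrderOf (tT p D L) ∣ j := addOrderOf_dvd_of_nsmul_eq_zero hj
      have h3 : addOrderOf (tT p D L) ∣ 1 := by
        rw [← hco.gcd_eq_one]
        exact Nat.dvd_gcd h1 h2
      rw [Nat.dvd_one, AddMonoid.addOrderOf_eq_one_iff] at h3
      exact h3
    have h1 : Sim p DL (t1 p DL) ⊤ := by
      have h2 := d6
      rw [hT0] at h2
      exact (d4 _ _ _ _ h2 d5).1.1 rfl
    have hn1 : nm p DL ⊤ ≠ 0 := by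
      rw [none]
      exact one_ne_zero
    have hsim : Sim p DL ((⊤ : Ideal (BR p DL)).map (bc p (RingHom.id L) DL DL rfl) *
        (⊤ : Ideal (BR p DL)).map (sg p DL ((RingHom.id L) ζL) hz1)) ⊤ := by
      rw [Ideal.map_top, Ideal.map_top, Ideal.mul_top]
      exact ⟨1, 1, one_ne_zero, one_ne_zero, rfl⟩
    obtain ⟨ρ, hρ, -, hτ⟩ := hD4H p L ζL hζL' DL hDL0 ⊤ top_ne_bot hn1 L (RingHom.id L) DL rfl hz1 ⊤ top_ne_bot hsim
    have h3 := (hτ (RingHom.id L) Function.bijective_id (fun x => rfl) rfl).2 1 (by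
      rw [Ideal.map_top, Ideal.top_mul, pow_one]
      exact Pool.Agent.Q164.CJ.sim_symm' h1)
    have h4 : ζL = 1 := by
      have h5 : ρ = ζL ^ 1 * ρ := h3
      rw [pow_one] at h5
      exact (mul_right_cancel₀ hρ (by rw [one_mul]; exact h5)).symm
    exact hζL'.ne_one hp.one_lt h4
  · exact alg_lem p hp2 _ _ hN

end Pool.Agent.Q211.CJ
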