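import Pool.Agent.Q7.CJ.Stm3

set_option autoImplicit false

/-!
# Project CJ (helper7), job KUM: Kummer theory
-/

open Polynomial Pool.Agent.Q7.CJ

namespace Pool.Agent.Q211.CJ

theorem kum : S_KUM := by
  intro p hp F _ _ ζ hζ h hloc hh
  have hp0 : p ≠ 0 := hp.out.ne_zero
  have hgal : IsGalois F (AlgebraicClosure F) := IsAlgClosure.isGalois F (AlgebraicClosure F)
  -- the character
  let χ : GalF F →* Multiplicative (ZMod p) := MonoidHom.mk' (fun σ => Multiplicative.ofAdd ((h σ : ℕ) : ZMod p)) (by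
    intro σ τ
    have h1 : ((h (σ * τ) : ℕ) : ZMod p) = ((h σ + h τ : ℕ) : ZMod p) := (ZMod.natCast_eq_natCast_iff _ _ _).2 (hh σ τ)
    show Multiplicative.ofAdd ((h (σ * τ) : ℕ) : ZMod p) = _
    rw [h1, Nat.cast_add]
    rfl)
  have hχ : ∀ σ : GalF F, χ σ = Multiplicative.ofAdd ((h σ : ℕ) : ZMod p) := fun _ => rfl
  have hopen : IsOpen (χ.ker : Set (GalF F)) := by
    have h1 : (χ.ker : Set (GalF F)) = h ⁻¹' {n : ℕ | ((n : ℕ) : ZMod p) = 0} := by
      ext σ
      rw [SetLike.mem_coe, MonoidHom.mem_ker, hχ]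
      exact Iff.rfl
    rw [h1]
    exact hloc _
  let N : ClosedSubgroup (GalF F) := ⟨χ.ker, Subgroup.isClosed_of_isOpen _ hopen⟩
  let K : IntermediateField F (AlgebraicClosure F) := IntermediateField.fixedField (χ.ker)
  have hK : K.fixingSubgroup = χ.ker := InfiniteGalois.fixingSubgroup_fixedField N
  have hnorm : K.fixingSubgroup.Normal := by
    rw [hK]
    exact MonoidHom.normal_ker χ
  have hKgal : IsGalois F K := (InfiniteGalois.normal_iff_isGalois K).1 hnorm
  have hKfin : FiniteDimensional F K := by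
    refine (InfiniteGalois.isOpen_iff_finite K).1 ?_
    show IsOpen (K.fixingSubgroup : Set (GalF F))
    rw [hK]
    exact hopen
  have hres : Function.Surjective (AlgEquiv.restrictNormalHom K : GalF F →* (K ≃ₐ[F] K)) :=
    AlgEquiv.restrictNormalHom_surjective (AlgebraicClosure F)
  have hker : ∀ σ τ : GalF F, AlgEquiv.restrictNormalHom K σ = AlgEquiv.restrictNormalHom K τ →
      ((h σ : ℕ) : ZMod p) = ((h τ : ℕ) : ZMod p) := by
    intro σ τ hστ
    have h1 : τ⁻¹ * σ ∈ (AlgEquiv.restrictNormalHom K : GalF F →* (K ≃ₐ[F] K)).ker := by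
      rw [MonoidHom.mem_ker, map_mul, map_inv, hστ, inv_mul_cancel]
    rw [IntermediateField.restrictNormalHom_ker, hK, MonoidHom.mem_ker, map_mul, map_inv, inv_mul_eq_one] at h1
    exact (congrArg Multiplicative.toAdd h1).symm
  have hpw : ∀ (L : Type) [Field L] [Algebra F L] (m n : ℕ), ((m : ℕ) : ZMod p) = ((n : ℕ) : ZMod p) →
      (algebraMap F L ζ) ^ m = (algebraMap F L ζ) ^ n := by
    intro L _ _ m n hmn
    have h1 := (ZMod.natCast_eq_natCast_iff _ _ _).1 hmn
    have h2 : ζ ^ m = ζ ^ n := by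
      have h9 : ∀ n : ℕ, ζ ^ n = ζ ^ (n % p) := by
        intro n
        conv_rhs => rw [hζ.eq_orderOf]
        exact (pow_mod_orderOf _ n).symm
      rw [h9 m, h9 n, h1]
    rw [← map_pow, h2, map_pow]
  have hζ0 : ζ ≠ 0 := hζ.ne_zero hp0
  -- the cocycle
  let lf : (K ≃ₐ[F] K) → GalF F := Function.surjInv hres
  have hlf : ∀ g, AlgEquiv.restrictNormalHom K (lf g) = g := Function.surjInv_eq hres
  let f : (K ≃ₐ[F] K) → Kˣ := fun g =>
    Units.mk0 (algebraMap F K ζ ^ h (lf g)) (pow_ne_zero _ ((_root_.map_ne_zero _).2 hζ0))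
  have hf : groupCohomology.IsMulCocycle₁ f := by
    intro g g'
    ext1
    show algebraMap F K ζ ^ h (lf (g * g')) = g (algebraMap F K ζ ^ h (lf g')) * algebraMap F K ζ ^ h (lf g)
    rw [map_pow, AlgEquiv.commutes, ← pow_add]
    apply hpw
    have h1 : ((h (lf (g * g')) : ℕ) : ZMod p) = ((h (lf g * lf g') : ℕ) : ZMod p) := by
      apply hker
      rw [map_mul, hlf, hlf, hlf]
    have h2 : ((h (lf g * lf g') : ℕ) : ZMod p) = ((h (lf g) + h (lf g') : ℕ) : ZMod p) :=
      (ZMod.natCast_eq_natCast_iff _ _ _).2 (hh _ _)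
    rw [h1, h2, add_comm]
  obtain ⟨x, hx⟩ := groupCohomology.isMulCoboundary₁_of_isMulCocycle₁_of_aut_to_units f hf
  have hx0 : ((x : K) : AlgebraicClosure F) ≠ 0 := by
    intro h0
    exact x.ne_zero (Subtype.ext h0)
  have hτ : ∀ τ : GalF F, τ ((x : K) : AlgebraicClosure F) =
      algebraMap F (AlgebraicClosure F) ζ ^ h τ * ((x : K) : AlgebraicClosure F) := by
    intro τ
    have h1 := hx (AlgEquiv.restrictNormalHom K τ)
    rw [div_eq_iff_eq_mul] at h1
    have h2 := congrArg (fun u : Kˣ => ((u : K) : AlgebraicClosure F)) h1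
    have h3 : (((AlgEquiv.restrictNormalHom K τ • x : Kˣ) : K) : AlgebraicClosure F) =
        τ ((x : K) : AlgebraicClosure F) := by
      show (((AlgEquiv.restrictNormalHom K τ) (x : K) : K) : AlgebraicClosure F) = _
      exact AlgEquiv.restrictNormal_commutes τ K (x : K)
    have h4 : ((((f (AlgEquiv.restrictNormalHom K τ)) * x : Kˣ) : K) : AlgebraicClosure F) =
        algebraMap F (AlgebraicClosure F) ζ ^ h (lf (AlgEquiv.restrictNormalHom K τ)) * ((x : K) : AlgebraicClosure F) := rfl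
    have h5 : τ ((x : K) : AlgebraicClosure F) =
        algebraMap F (AlgebraicClosure F) ζ ^ h (lf (AlgEquiv.restrictNormalHom K τ)) * ((x : K) : AlgebraicClosure F) := by
      rw [← h3, ← h4]
      exact h2
    rw [h5, hpw (AlgebraicClosure F) _ _ (hker _ _ (hlf _))]
  have hfix : ∀ τ : GalF F, τ (((x : K) : AlgebraicClosure F) ^ p) = ((x : K) : AlgebraicClosure F) ^ p := by
    intro τ
    rw [map_pow, hτ, mul_pow, ← pow_mul, mul_comm (h τ) p, pow_mul, ← map_pow, hζ.pow_eq_one, map_one, one_pow, one_mul]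
  obtain ⟨a, ha⟩ := (InfiniteGalois.mem_range_algebraMap_iff_fixed (k := F) (((x : K) : AlgebraicClosure F) ^ p)).2 hfix
  refine ⟨(x : K), a, ?_, ha.symm, hτ⟩
  rintro rfl
  rw [map_zero] at ha
  exact pow_ne_zero _ hx0 ha.symm

end Pool.Agent.Q211.CJ
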